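import Pool.Agent.K1H16.TS.Final
import Pool.Agent.K1H33.TSL.Lower
import Pool.Agent.K1H74.TS.T4

/-!
# The complexity of the cyclic groups of order `p ^ n * q ^ m`

For distinct primes `p`, `q` and all `n ≥ m ≥ 2` the complexity of the cyclic group `G` of order
`p ^ n * q ^ m`, the largest size of a minimal basis of a transfer system for `G`, is `F n m`: this is
Q1. Also every transfer system for `G` has a minimal basis, and all its minimal bases are finite and
have the same size `mBasis T`, so that the definitions make sense.

The definitions (`IsTransfer`, `gen`, `IsBasis`, `IsMinBasis`, `mBasis`, `F`) are in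
`Pool/Agent/K1H16/TS/Stm.lean`.

Outline of the proof.

1. *Transfer systems* (`Pool/Agent/K1H7/TS/`). Let `T` be a transfer system on a finite lattice. The
   covering pairs of `T` which are not proper restrictions of covering pairs form a minimal basis, all
   minimal bases have the same size, and any two of these pairs `s < t`, `s' < t'` with `s ≤ s'`,
   `t ≤ t'` satisfy `t ≤ s'` (no conflict) or are equal. Conversely a conflict-free set of pairs is a
   minimal basis of the transfer system it generates. So the complexity is the largest size of a
   conflict-free set of pairs of points of the grid `[0,n] × [0,m]`.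
2. *Lower bound* (`Pool/Agent/K1H33/TSL/`). Pairs `(a,x) < (b,y)` with `a + b + x + y` constant
   (`n + m` or `n + m - 1`, and a small modification for `m = 2`).
3. *Upper bound* (`Pool/Agent/K1H16/TS/`). The outer layer `{a = 0 or y = m}` of the pairs is divided
   into shells by the smaller length of the two intervals `[a,b]`, `[x,y]` and every shell is covered
   by explicit cliques (`P0.lean`, `Shell.lean`). This gives `⌈(n+1)(m+1)/2⌉` for the layer and, by
   induction, the theorem for `n + m` odd. For `n`, `m` even this bound is too large by one for every
   second layer. But a conflict-free set of the maximal size in the layer is almost determined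
   (`Struct.lean`, `Struct2.lean`, `Struct3.lean`): it contains all pairs of the level `n + m` in the
   layer except a few at one corner. This costs one element in the next layer
   (`Pool/Agent/K1H95/TS/`), and for `m = 3, 4` one in the neighbouring layer
   (`Pool/Agent/K1H74/TS/`). See `Upper.lean`.
-/

set_option autoImplicit false

namespace Pool.Agent.Results.MP_0ca1b9_co.ComplexityFormula

open K1H16.TS

/-- The complexity `𝔠(G)`: the largest `𝔪(T)`, for all transfer systems `T` for `G`. -/
noncomputable def complexity (G : Type) [Group G] : ℕ :=
  sSup {k | ∃ T : Subgroup G → Subgroup G → Prop, IsTransfer T ∧ mBasis T = k}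

/-- For distinct primes `p`, `q` and all `n ≥ m ≥ 2` the complexity of the cyclic group `G` of order
`p ^ n * q ^ m` is `F n m`; it is the maximum of the numbers `mBasis T`, where `T` is a transfer system
for `G`; and every such `T` has a minimal basis, and all its minimal bases are finite and have the size
`mBasis T`. -/
theorem result {p q : ℕ} (hp : p.Prime) (hq : q.Prime) (hpq : p ≠ q) {n m : ℕ} (hm : 2 ≤ m)
    (hnm : m ≤ n) (G : Type) [Group G] [IsCyclic G] (hG : Nat.card G = p ^ n * q ^ m) :
    complexity G = F n m ∧
    IsGreatest {k | ∃ T : Subgroup G → Subgroup G → Prop, IsTransfer T ∧ mBasis T = k} (F n m) ∧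
    ∀ T : Subgroup G → Subgroup G → Prop, IsTransfer T →
      (∃ S, IsMinBasis T S) ∧ ∀ S, IsMinBasis T S → S.Finite ∧ S.ncard = mBasis T := by
  have h := final K1H74.TS.t_T4 Pool.Agent.K1H33.TSL.t_lower hp hq hpq hm hnm G hG
  exact ⟨h.2.csSup_eq, h.2, h.1⟩

end Pool.Agent.Results.MP_0ca1b9_co.ComplexityFormula
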